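import Mathlib
import Pool.Agent.Y423.GP.Count

set_option autoImplicit false

/-!
# MP_25490b_co, Q1: the number of geometric permutations in every dimension at least three

For every `d ≥ 3` there are families of `n` pairwise disjoint compact convex sets in `ℝ^d` with at
least a constant times `n ^ ⌊3 (d - 1) / 2⌋` geometric permutations. In particular `g d n` is not of
order `n ^ (d - 1)` in any dimension `d ≥ 3`: the ratio tends to infinity, and for large `d` the
exponent is larger than `d - 1` by the factor `3 / 2`.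
-/

namespace Pool.Agent.Results.MP_25490b_co.AllDimensions

open Filter Pool.Agent.Results.MP_25490b_co.CubicPermutations

lemma ratio_tendsto {d : ℕ} (hd : 3 ≤ d) :
    Tendsto (fun n : ℕ => (g d n : ℝ) / (n : ℝ) ^ (d - 1)) atTop atTop := by
  obtain ⟨C, hC⟩ : ∃ C : ℕ, C = 2 ^ ((d - 1) / 2) *
    (3 * (d - 1) / 2) ^ (3 * (d - 1) / 2) := ⟨_, rfl⟩
  have hC0 : 0 < C := by
    rw [hC]
    have : 0 < 3 * (d - 1) / 2 := by omega
    positivity
  have hC0' : (0:ℝ) < C := by exact_mod_cast hC0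
  have h1 : Tendsto (fun n : ℕ => (n : ℝ) / C) atTop atTop :=
    tendsto_natCast_atTop_atTop.atTop_div_const hC0'
  refine tendsto_atTop_mono' _ ?_ h1
  filter_upwards [eventually_ge_atTop (3 * (d - 1))] with n hn
  have h2 := Pool.Agent.Y423.GP.poly_bound hd n hn
  rw [← hC] at h2
  have hn1 : 1 ≤ n := by omega
  have hn0 : (0:ℝ) < n := by exact_mod_cast hn1
  have h3 : n ^ d ≤ n ^ (3 * (d - 1) / 2) := Nat.pow_le_pow_right hn1 (by omega)
  have h4 : n ^ (d - 1) * n ≤ C * g d n := by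
    rw [← pow_succ, Nat.sub_add_cancel (by omega : 1 ≤ d)]
    exact h3.trans h2
  have h5 : (n:ℝ) ^ (d - 1) * n ≤ C * g d n := by exact_mod_cast h4
  rw [div_le_div_iff₀ hC0' (by positivity)]
  nlinarith

/-- In every dimension `d ≥ 3` the largest number of geometric permutations of `n` pairwise
disjoint compact convex sets grows at least like `n ^ ⌊3 (d - 1) / 2⌋`; the ratio of `g d n` and
`n ^ (d - 1)` tends to infinity, so `g d n` is not of order `n ^ (d - 1)` for any `d ≥ 3`. -/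
theorem result :
    (∀ d : ℕ, 3 ≤ d → ∀ n : ℕ, 3 * (d - 1) ≤ n →
      n ^ (3 * (d - 1) / 2) ≤
        2 ^ ((d - 1) / 2) * (3 * (d - 1) / 2) ^ (3 * (d - 1) / 2) * g d n) ∧
    (∀ d : ℕ, 3 ≤ d → Tendsto (fun n : ℕ => (g d n : ℝ) / (n : ℝ) ^ (d - 1)) atTop atTop) ∧
    (∀ d : ℕ, 3 ≤ d → ¬ (fun n : ℕ => (g d n : ℝ)) =O[atTop] (fun n : ℕ => (n : ℝ) ^ (d - 1))) := by
  refine ⟨fun d hd n hn => Pool.Agent.Y423.GP.poly_bound hd n hn, fun d hd => ratio_tendsto hd,
    fun d hd h => ?_⟩
  rw [Asymptotics.isBigO_iff] at h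
  obtain ⟨K, hK⟩ := h
  obtain ⟨n, h1, h2, h3⟩ := (hK.and (((ratio_tendsto hd).eventually_gt_atTop K).and
    (eventually_ge_atTop 1))).exists
  have hn0 : (0:ℝ) < n := by exact_mod_cast h3
  have hp : (0:ℝ) < (n:ℝ) ^ (d - 1) := by positivity
  rw [Real.norm_of_nonneg (by positivity), Real.norm_of_nonneg (by positivity)] at h1
  rw [lt_div_iff₀ hp] at h2
  linarith

end Pool.Agent.Results.MP_25490b_co.AllDimensions
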